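import Pool.Agent.Helper81.PX.Core3
import Pool.Agent.Helper81.PX.Main3
import Pool.Agent.Helper94.PX.Half
import Pool.Agent.Helper14.PW.MainE
import Pool.Agent.Helper14.PW.Zero

/-!
Project PX (MP_b8862a_ag): the exceptional set has `O(√X)` elements below `X`.
-/

open Module

attribute [local instance 100] LieRing.ofAssociativeRing

namespace PX

theorem half_bdd14 (m : ℕ) : Half {n | n < m} := by
  refine ⟨m, fun X => ?_⟩
  rcases Nat.eq_zero_or_pos X with rfl | hX
  · have h1 : PW.cn {n | n < m} 0 = 0 := by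
      have h2 := PW.cn_le14 (A := {n | n < m}) (X := 0) (T := ∅) (fun n h1 h2 _ => absurd h1 (by omega))
      rw [Finset.card_empty] at h2
      omega
    rw [h1, Nat.cast_zero]
    positivity
  · have h1 : PW.cn {n | n < m} X ≤ m :=
      (PW.cn_le14 (T := Finset.range m) fun n _ _ h3 => Finset.mem_range.2 h3).trans (Finset.card_range m).le
    have h2 : (1 : ℝ) ≤ (X : ℝ) ^ (1 / 2 : ℝ) := Real.one_le_rpow (by exact_mod_cast hX) (by positivity)
    calc (PW.cn {n | n < m} X : ℝ) ≤ m := by exact_mod_cast h1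
      _ = m * 1 := (mul_one _).symm
      _ ≤ m * (X : ℝ) ^ (1 / 2 : ℝ) := mul_le_mul_of_nonneg_left h2 (by positivity)

/-- the bound, in terms of cardinalities -/
theorem Half.card14 {S : Set ℕ} (h : Half S) : ∃ C : ℝ, ∀ X : ℕ,
    (Nat.card {n : Fin X // (n : ℕ) ∈ S} : ℝ) ≤ C * Real.sqrt X := by
  classical
  obtain ⟨C, hC⟩ := h
  refine ⟨C + 1, fun X => ?_⟩
  rw [Real.sqrt_eq_rpow]
  rcases Nat.eq_zero_or_pos X with rfl | hX
  · have h1 : Nat.card {n : Fin 0 // (n : ℕ) ∈ S} = 0 := by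
      rw [Nat.card_eq_zero]
      left
      exact ⟨fun x => x.1.elim0⟩
    rw [h1, Nat.cast_zero, Real.zero_rpow (by positivity), mul_zero]
  have h2 : Nat.card {n : Fin X // (n : ℕ) ∈ S} ≤ PW.cn S X + 1 := by
    rw [Nat.card_eq_fintype_card, Fintype.card_subtype]
    have h3 : ((Finset.univ : Finset (Fin X)).filter fun n : Fin X => (n : ℕ) ∈ S).card ≤
        (insert 0 ((Finset.Icc 1 X).filter (· ∈ S))).card := by
      refine Finset.card_le_card_of_injOn (fun n : Fin X => (n : ℕ)) ?_ (fun a _ b _ hab => Fin.ext hab)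
      intro n hn
      have hn := (Finset.mem_filter.1 hn).2
      rw [Finset.mem_coe, Finset.mem_insert, Finset.mem_filter, Finset.mem_Icc]
      by_cases h4 : (n : ℕ) = 0
      · exact Or.inl h4
      · exact Or.inr ⟨⟨Nat.one_le_iff_ne_zero.2 h4, n.2.le⟩, hn⟩
    refine h3.trans ((Finset.card_insert_le _ _).trans (le_of_eq ?_))
    unfold PW.cn
    congr
  have h3 : (1 : ℝ) ≤ (X : ℝ) ^ (1 / 2 : ℝ) := Real.one_le_rpow (by exact_mod_cast hX) (by positivity)
  calc (Nat.card {n : Fin X // (n : ℕ) ∈ S} : ℝ) ≤ PW.cn S X + 1 := by exact_mod_cast h2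
    _ ≤ C * (X : ℝ) ^ (1 / 2 : ℝ) + 1 := by linarith [hC X]
    _ ≤ C * (X : ℝ) ^ (1 / 2 : ℝ) + (X : ℝ) ^ (1 / 2 : ℝ) := by linarith
    _ = (C + 1) * (X : ℝ) ^ (1 / 2 : ℝ) := by ring

end PX

namespace MH

/-- The exceptional dimensions. -/
def ExDim3 : Set ℕ := PX.Ex3 ∪ ({n | n < 9} ∪ {n | ∃ d k : ℕ, 2 ≤ k ∧ n = d ^ k})

theorem exE_dim3 : ExE ExDim3 where
  core := by
    intro n _ hn ω hω hnd L hL hirr hsk
    haveI : LieAlgebra.IsSimple ℂ L := hL
    refine PX.core3 hω hnd hirr hsk ?_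
    rw [Module.finrank_fintype_fun_eq_card]
    exact fun h => hn (Or.inl h)
  small := fun n hn => Or.inr (Or.inl hn)
  pow := fun d k hk => Or.inr (Or.inr ⟨d, k, hk, rfl⟩)

theorem half_dim3 : ∃ C : ℝ, ∀ X : ℕ, (Nat.card {n : Fin X // (n : ℕ) ∈ ExDim3} : ℝ) ≤ C * Real.sqrt X :=
  (PX.ex3_half.union ((PX.half_bdd14 9).union PX.pow_half)).card14

theorem prime_dim3 {n q : ℕ} (hn : 0 < n) (hq : q.Prime) (hd : q ∣ n) (h25 : 25 * n ≤ q ^ 2) : n ∉ ExDim3 := by
  have hqn : q ≤ n := Nat.le_of_dvd hn hd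
  have h1 : 25 ≤ q := by
    have h3 : 25 * q ≤ q * q := by
      calc 25 * q ≤ 25 * n := Nat.mul_le_mul_left _ hqn
        _ ≤ q ^ 2 := h25
        _ = q * q := sq q
    exact Nat.le_of_mul_le_mul_right h3 hq.pos
  rintro (h | h | ⟨d, k, hk, rfl⟩)
  · exact PX.ex3_prime hq hd h25 h
  · have : n < 9 := h
    omega
  · have hd2 : 2 ≤ d := by
      by_contra h2
      have h3 : d = 0 ∨ d = 1 := by omega
      rcases h3 with rfl | rfl
      · rw [zero_pow (by omega)] at hn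
        omega
      · rw [one_pow] at hqn
        omega
    exact num_prime98 hq hd (by omega) hk rfl hd2

end MH
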